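import Mathlib

/-!
# The configuration `θ*` does not maximise `|Θ_n|` for `n = 4`

For `n = 4` the alternating sum in `|Θ_4(θ*)|` equals `9 · 1440 = 12960`, while at the configuration
`θ_j = (ζ^j, ζ^j, ζ^j, ζ^{4j})`, `ζ = exp (2 π i / 9)`, it equals `9 · 1536 = 13824`.
-/

set_option autoImplicit false

open Finset Equiv

namespace Pool.Agent.Results.MP_89dd65_gt.NotMaximal

/-- The orientation cocycle of the circle: the sign of the oriented area of the triangle with
vertices `a, b, c` on the unit circle. It is `1` if `a, b, c` are distinct and in counterclockwise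
cyclic order, `-1` if they are distinct and in clockwise cyclic order, `0` if two of them
coincide. -/
noncomputable def Or (a b c : Circle) : ℝ :=
  ((SignType.sign ((starRingEnd ℂ ((b : ℂ) - a) * ((c : ℂ) - a)).im) : SignType) : ℝ)

/-- The function `Θ_n` on `(2n+1)`-tuples of points `θ_0, …, θ_{2n}` of the torus `𝕋^n`; `θ j i` is
the coordinate of index `i` of the point `θ_j` (coordinates numbered `0, …, n-1`). -/
noncomputable def Theta (n : ℕ) (θ : Fin (2 * n + 1) → Fin n → Circle) : ℝ :=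
  Real.pi ^ n / (Nat.factorial (2 * n + 1) : ℝ) *
    ∑ σ : Perm (Fin (2 * n + 1)), ((Perm.sign σ : ℤ) : ℝ) *
      ∏ i : Fin n, Or (θ (σ ⟨2 * (i : ℕ), by omega⟩) i) (θ (σ ⟨2 * (i : ℕ) + 1, by omega⟩) i)
        (θ (σ ⟨2 * (i : ℕ) + 2, by omega⟩) i)

/-- The configuration `θ*`: `(θ*_j)^k = ζ^{k j}` for `k = 1, …, n`, with
`ζ = exp (2 π i / (2 n + 1))`. -/
noncomputable def thetaStar (n : ℕ) : Fin (2 * n + 1) → Fin n → Circle :=
  fun j k => Circle.exp (2 * Real.pi / (2 * n + 1)) ^ (((k : ℕ) + 1) * (j : ℕ))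

/-! ### Alternating sums over permutations and lists -/

/-- the alternating sum of `G` over all orderings of the entries of `L` -/
def alt (n : ℕ) (L : Fin n → ℕ) (G : (Fin n → ℕ) → ℤ) : ℤ :=
  ∑ σ : Perm (Fin n), (Perm.sign σ : ℤ) * G (L ∘ σ)

/-- the permutation `0 ↦ i`, `j + 1 ↦ i.succAbove (τ j)` -/
def ins {n : ℕ} (x : Fin (n + 1) × Perm (Fin n)) : Perm (Fin (n + 1)) :=
  x.1.cycleRange.symm * Perm.decomposeFin.symm (0, x.2)

theorem ins_zero {n : ℕ} (i : Fin (n + 1)) (τ : Perm (Fin n)) : ins (i, τ) 0 = i := by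
  simp [ins, Perm.mul_apply]

theorem ins_succ {n : ℕ} (i : Fin (n + 1)) (τ : Perm (Fin n)) (j : Fin n) :
    ins (i, τ) j.succ = i.succAbove (τ j) := by
  simp [ins, Perm.mul_apply]

theorem ins_sign {n : ℕ} (i : Fin (n + 1)) (τ : Perm (Fin n)) :
    (Perm.sign (ins (i, τ)) : ℤ) = (-1) ^ (i : ℕ) * (Perm.sign τ : ℤ) := by
  rw [ins, Perm.sign_mul, Perm.sign_symm, Fin.sign_cycleRange, Perm.decomposeFin.symm_sign]
  simp

theorem ins_bij (n : ℕ) : Function.Bijective (ins (n := n)) := by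
  rw [Fintype.bijective_iff_injective_and_card]
  constructor
  · rintro ⟨i, τ⟩ ⟨i', τ'⟩ h
    have h0 : i = i' := by
      have := congrArg (fun s => s 0) h
      simpa [ins_zero] using this
    subst h0
    have h1 : τ = τ' := by
      ext1 j
      have := congrArg (fun s : Perm (Fin (n + 1)) => s j.succ) h
      simp only [ins_succ] at this
      exact Fin.succAbove_right_injective this
    rw [h1]
  · simp [Fintype.card_perm, Nat.factorial_succ]

theorem alt_succ (n : ℕ) (L : Fin (n + 1) → ℕ) (G : (Fin (n + 1) → ℕ) → ℤ) :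
    alt (n + 1) L G = ∑ i : Fin (n + 1), (-1) ^ (i : ℕ) *
      alt n (L ∘ i.succAbove) (fun r => G (Fin.cons (L i) r)) := by
  unfold alt
  rw [← (ins_bij n).sum_comp, Fintype.sum_prod_type]
  refine Finset.sum_congr rfl fun i _ => ?_
  rw [Finset.mul_sum]
  refine Finset.sum_congr rfl fun τ _ => ?_
  have e : L ∘ (ins (i, τ)) = Fin.cons (L i) ((L ∘ i.succAbove) ∘ τ) := by
    funext j
    refine Fin.cases ?_ (fun j => ?_) j
    · rw [Function.comp_apply, ins_zero, Fin.cons_zero]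
    · rw [Function.comp_apply, ins_succ, Fin.cons_succ]
      rfl
  rw [ins_sign, mul_assoc, e]

/-- cyclic orientation of three numbers -/
def o (x y z : ℤ) : ℤ := Int.sign (y - x) * Int.sign (z - y) * Int.sign (z - x)

/-- all ways to take one element out of a list, with alternating signs -/
def pick : List ℕ → List (ℤ × ℕ × List ℕ)
  | [] => []
  | a :: l => (1, a, l) :: (pick l).map fun x => (-x.1, x.2.1, a :: x.2.2)

theorem pick_sum (n : ℕ) (L : Fin (n + 1) → ℕ) (h : ℤ → ℕ → List ℕ → ℤ) :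
    ((pick (List.ofFn L)).map fun x => h x.1 x.2.1 x.2.2).sum =
      ∑ i : Fin (n + 1), h ((-1) ^ (i : ℕ)) (L i) (List.ofFn (L ∘ i.succAbove)) := by
  induction n generalizing h with
  | zero =>
    simp [List.ofFn_succ, pick]
  | succ n ih =>
    rw [List.ofFn_succ, pick, List.map_cons, List.sum_cons, List.map_map, Fin.sum_univ_succ]
    refine congrArg₂ (fun x y => x + y) ?_ ?_
    · rfl
    · have e := ih (fun i => L i.succ) (fun s a l => h (-s) a (L 0 :: l))
      have e2 : ((fun x : ℤ × ℕ × List ℕ => h x.1 x.2.1 x.2.2) ∘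
          fun x : ℤ × ℕ × List ℕ => (-x.1, x.2.1, L 0 :: x.2.2)) =
          fun x => h (-x.1) x.2.1 (L 0 :: x.2.2) := rfl
      rw [e2, e]
      refine Finset.sum_congr rfl fun i _ => ?_
      rw [Fin.val_succ, pow_succ, mul_neg_one, List.ofFn_succ]
      congr 2
      simp only [Function.comp_apply]
      congr 1
      funext j
      simp [Fin.succ_succAbove_succ]

/-- the chain product -/
def chain : List (ℕ → ℤ) → ℕ → List ℕ → ℤ
  | [], _, _ => 1
  | p :: ps, v, w :: u :: r => o (p v) (p w) (p u) * chain ps u r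
  | _ :: _, _, _ => 0

/-- the alternating sum of the chain product over all orderings of `L` -/
def T : List (ℕ → ℤ) → ℕ → List ℕ → ℤ
  | [], _, _ => 1
  | p :: ps, v, L => ((pick L).map fun x => ((pick x.2.2).map fun y =>
      x.1 * y.1 * o (p v) (p x.2.1) (p y.2.1) * T ps y.2.1 y.2.2).sum).sum

theorem alt_chain (ps : List (ℕ → ℤ)) : ∀ (v n : ℕ), n = 2 * ps.length → ∀ L : Fin n → ℕ,
    alt n L (fun f => chain ps v (List.ofFn f)) = T ps v (List.ofFn L) := by
  induction ps with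
  | nil =>
    intro v n hn L
    have : n = 0 := by simpa using hn
    subst this
    simp [alt, chain, T]
  | cons p ps ih =>
    intro v n hn L
    obtain ⟨m, rfl⟩ : ∃ m, n = m + 1 + 1 := ⟨n - 2, by simp at hn; omega⟩
    have hm : m = 2 * ps.length := by simp at hn; omega
    rw [alt_succ, T, pick_sum (m + 1) L (fun s w l => ((pick l).map fun y =>
      s * y.1 * o (p v) (p w) (p y.2.1) * T ps y.2.1 y.2.2).sum)]
    refine Finset.sum_congr rfl fun i _ => ?_
    rw [alt_succ, pick_sum m (L ∘ i.succAbove) (fun s u l =>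
      (-1) ^ (i : ℕ) * s * o (p v) (p (L i)) (p u) * T ps u l), Finset.mul_sum]
    refine Finset.sum_congr rfl fun j _ => ?_
    rw [← ih _ m hm]
    unfold alt
    rw [Finset.mul_sum, Finset.mul_sum, Finset.mul_sum]
    refine Finset.sum_congr rfl fun τ _ => ?_
    have e : ∀ r : Fin m → ℕ, chain (p :: ps) v
        (List.ofFn (Fin.cons (L i) (Fin.cons ((L ∘ i.succAbove) j) r : Fin (m + 1) → ℕ) :
          Fin (m + 1 + 1) → ℕ)) =
        o (p v) (p (L i)) (p ((L ∘ i.succAbove) j)) * chain ps ((L ∘ i.succAbove) j)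
          (List.ofFn r) := by
      intro r
      rw [List.ofFn_succ, List.ofFn_succ]
      simp [chain]
    beta_reduce
    rw [e]
    ring

/-- the residue `k j` modulo `9` -/
def q (k j : ℕ) : ℤ := ((k * j % 9 : ℕ) : ℤ)

/-- the product of the four cyclic orientations -/
def F (p : Fin 4 → ℕ) (f : Fin 9 → ℕ) : ℤ :=
  o (q (p 0) (f 0)) (q (p 0) (f 1)) (q (p 0) (f 2)) *
  (o (q (p 1) (f 2)) (q (p 1) (f 3)) (q (p 1) (f 4)) *
  (o (q (p 2) (f 4)) (q (p 2) (f 5)) (q (p 2) (f 6)) *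
  (o (q (p 3) (f 6)) (q (p 3) (f 7)) (q (p 3) (f 8)))))

theorem F_cons (p : Fin 4 → ℕ) (r : Fin 8 → ℕ) :
    F p (Fin.cons 0 r) = chain [q (p 0), q (p 1), q (p 2), q (p 3)] 0 (List.ofFn r) := by
  simp only [List.ofFn_succ, List.ofFn_zero, chain, mul_one]
  rfl

theorem o_shift : ∀ x y z k : Fin 9, o (((x : ℕ) + (k : ℕ)) % 9 : ℕ) (((y : ℕ) + (k : ℕ)) % 9 : ℕ)
    (((z : ℕ) + (k : ℕ)) % 9 : ℕ) = o ((x : ℕ) : ℤ) ((y : ℕ) : ℤ) ((z : ℕ) : ℤ) := by
  decide +kernel

theorem o_q_shift (k a b c i : ℕ) : o (q k (a + i)) (q k (b + i)) (q k (c + i)) =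
    o (q k a) (q k b) (q k c) := by
  have := o_shift ⟨k * a % 9, Nat.mod_lt _ (by norm_num)⟩ ⟨k * b % 9, Nat.mod_lt _ (by norm_num)⟩
    ⟨k * c % 9, Nat.mod_lt _ (by norm_num)⟩ ⟨k * i % 9, Nat.mod_lt _ (by norm_num)⟩
  simp only [← Nat.add_mod, ← mul_add] at this
  exact this

theorem q_mod (k a : ℕ) : q k (a % 9) = q k a := by
  simp [q, Nat.mul_mod]

theorem o_q_shift' (k : ℕ) (a b c i : Fin 9) : o (q k ((a + i : Fin 9) : ℕ))
    (q k ((b + i : Fin 9) : ℕ)) (q k ((c + i : Fin 9) : ℕ)) = o (q k a) (q k b) (q k c) := by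
  rw [Fin.val_add, Fin.val_add, Fin.val_add, q_mod, q_mod, q_mod, o_q_shift]

theorem sign_add : ∀ i : Fin 9, Perm.sign (Equiv.addRight i) = 1 := by
  decide +kernel

theorem S_eq (p : Fin 4 → ℕ) : alt 9 (fun j => (j : ℕ)) (F p) =
    9 * T [q (p 0), q (p 1), q (p 2), q (p 3)] 0 [1, 2, 3, 4, 5, 6, 7, 8] := by
  have h1 : alt 9 (fun j => (j : ℕ)) (F p) =
      ∑ i : Fin 9, alt 9 (fun j => (j : ℕ)) (fun f => if f 0 = (i : ℕ) then F p f else 0) := by
    unfold alt
    rw [Finset.sum_comm]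
    refine Finset.sum_congr rfl fun σ _ => ?_
    rw [← Finset.mul_sum]
    congr 1
    rw [Finset.sum_eq_single (σ 0)]
    · simp
    · intro j _ hj
      refine if_neg ?_
      intro h
      exact hj (Fin.ext h.symm)
    · simp
  have h2 : ∀ i : Fin 9, alt 9 (fun j => (j : ℕ)) (fun f => if f 0 = (i : ℕ) then F p f else 0) =
      alt 9 (fun j => (j : ℕ)) (fun f => if f 0 = 0 then F p f else 0) := by
    intro i
    unfold alt
    rw [← Equiv.sum_comp (Equiv.mulLeft (Equiv.addRight i : Perm (Fin 9)))]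
    refine Finset.sum_congr rfl fun σ _ => ?_
    rw [Equiv.coe_mulLeft, Perm.sign_mul, sign_add, one_mul]
    congr 1
    have e1 : F p ((fun j : Fin 9 => (j : ℕ)) ∘ (Equiv.addRight i * σ : Perm (Fin 9))) =
        F p ((fun j : Fin 9 => (j : ℕ)) ∘ σ) := by
      simp only [F, Function.comp_apply, Perm.mul_apply, Equiv.coe_addRight, o_q_shift']
    beta_reduce
    rw [e1]
    simp only [Function.comp_apply, Perm.mul_apply, Equiv.coe_addRight]
    have e2 : (((σ 0 + i : Fin 9) : ℕ) = (i : ℕ)) ↔ ((σ 0 : Fin 9) : ℕ) = 0 := by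
      rw [Fin.val_inj, add_eq_right, ← Fin.val_inj]
      rfl
    simp only [e2]
  have h3 : alt 9 (fun j => (j : ℕ)) (fun f => if f 0 = 0 then F p f else 0) =
      T [q (p 0), q (p 1), q (p 2), q (p 3)] 0 [1, 2, 3, 4, 5, 6, 7, 8] := by
    rw [alt_succ, Finset.sum_eq_single 0]
    · rw [Fin.val_zero, pow_zero, one_mul]
      have := alt_chain [q (p 0), q (p 1), q (p 2), q (p 3)] 0 8 rfl
        ((fun j : Fin 9 => (j : ℕ)) ∘ Fin.succAbove 0)
      have e : List.ofFn ((fun j : Fin 9 => (j : ℕ)) ∘ Fin.succAbove 0) =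
          [1, 2, 3, 4, 5, 6, 7, 8] := by decide
      rw [e] at this
      rw [← this]
      congr 1
      funext r
      rw [← F_cons]
      simp
    · intro i _ hi
      unfold alt
      simp [Fin.val_eq_zero_iff, hi]
    · simp
  rw [h1, Finset.sum_congr rfl fun i _ => h2 i, h3]
  simp

set_option maxRecDepth 100000 in
theorem T_star : T [q 1, q 2, q 3, q 4] 0 [1, 2, 3, 4, 5, 6, 7, 8] = 1440 := by
  decide +kernel

set_option maxRecDepth 100000 in
theorem T_new : T [q 1, q 1, q 1, q 4] 0 [1, 2, 3, 4, 5, 6, 7, 8] = 1536 := by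
  decide +kernel

/-! ### The orientation cocycle at ninth roots of unity -/

theorem area (α β γ : ℝ) :
    (starRingEnd ℂ ((Circle.exp β : ℂ) - Circle.exp α) * ((Circle.exp γ : ℂ) - Circle.exp α)).im =
      4 * (Real.sin ((β - α) / 2) * Real.sin ((γ - β) / 2) * Real.sin ((γ - α) / 2)) := by
  have h : ∀ x : ℝ, (Circle.exp x : ℂ) = ⟨Real.cos x, Real.sin x⟩ := by
    intro x
    rw [Circle.coe_exp]
    apply Complex.ext
    · rw [Complex.exp_ofReal_mul_I_re]
    · rw [Complex.exp_ofReal_mul_I_im]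
  rw [h, h, h]
  simp only [Complex.mul_im, Complex.conj_re, Complex.conj_im, Complex.sub_re, Complex.sub_im]
  rw [Real.cos_sub_cos, Real.cos_sub_cos, Real.sin_sub_sin, Real.sin_sub_sin]
  have e : (γ - β) / 2 = (γ + α) / 2 - (β + α) / 2 := by ring
  rw [e, Real.sin_sub]
  ring

theorem sign_sin (m : ℤ) (h1 : -9 < m) (h2 : m < 9) :
    ((SignType.sign (Real.sin (Real.pi * m / 9)) : SignType) : ℤ) = Int.sign m := by
  have hpi := Real.pi_pos
  rcases lt_trichotomy m 0 with h | h | h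
  · rw [Int.sign_eq_neg_one_of_neg h, sign_neg]
    · rfl
    · apply Real.sin_neg_of_neg_of_neg_pi_lt
      · have : (m : ℝ) < 0 := by exact_mod_cast h
        have : Real.pi * m < 0 := mul_neg_of_pos_of_neg hpi this
        linarith
      · have : (-9 : ℝ) < m := by exact_mod_cast h1
        nlinarith
  · subst h
    simp
  · rw [Int.sign_eq_one_of_pos h, sign_pos]
    · rfl
    · apply Real.sin_pos_of_pos_of_lt_pi
      · have : (0 : ℝ) < m := by exact_mod_cast h
        positivity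
      · have : (m : ℝ) < 9 := by exact_mod_cast h2
        nlinarith

theorem exp_pow_mod (a : ℕ) : Circle.exp (2 * Real.pi / 9) ^ a =
    Circle.exp (2 * Real.pi / 9 * (a % 9 : ℕ)) := by
  have h9 : Circle.exp (2 * Real.pi / 9) ^ 9 = 1 := by
    rw [← Circle.exp_nsmul]
    have : (9 : ℕ) • (2 * Real.pi / 9) = 2 * Real.pi := by
      rw [nsmul_eq_mul]; push_cast; ring
    rw [this, Circle.exp_two_pi]
  have : a = 9 * (a / 9) + a % 9 := (Nat.div_add_mod a 9).symm
  conv_lhs => rw [this]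
  rw [pow_add, pow_mul, h9, one_pow, one_mul, ← Circle.exp_nsmul, nsmul_eq_mul, mul_comm]

theorem Or_pow (k a b c : ℕ) :
    Or (Circle.exp (2 * Real.pi / 9) ^ (k * a)) (Circle.exp (2 * Real.pi / 9) ^ (k * b))
      (Circle.exp (2 * Real.pi / 9) ^ (k * c)) = ((o (q k a) (q k b) (q k c) : ℤ) : ℝ) := by
  rw [Or, exp_pow_mod, exp_pow_mod, exp_pow_mod, area]
  have ha : k * a % 9 < 9 := Nat.mod_lt _ (by norm_num)
  have hb : k * b % 9 < 9 := Nat.mod_lt _ (by norm_num)
  have hc : k * c % 9 < 9 := Nat.mod_lt _ (by norm_num)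
  have key : ∀ x y : ℕ, x < 9 → y < 9 →
      ((SignType.sign (Real.sin ((2 * Real.pi / 9 * (y : ℕ) - 2 * Real.pi / 9 * (x : ℕ)) / 2)) :
        SignType) : ℤ) = Int.sign ((y : ℤ) - x) := by
    intro x y hx hy
    rw [← sign_sin ((y : ℤ) - x) (by omega) (by omega)]
    congr 3
    push_cast
    ring
  rw [sign_mul, sign_mul, sign_mul, sign_pos (by norm_num : (0 : ℝ) < 4), one_mul, o, q, q, q,
    ← key _ _ ha hb, ← key _ _ hb hc, ← key _ _ ha hc]
  simp

/-- the configuration `θ_j = (ζ^{p_0 j}, …, ζ^{p_3 j})` -/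
noncomputable def conf (p : Fin 4 → ℕ) : Fin 9 → Fin 4 → Circle :=
  fun j k => Circle.exp (2 * Real.pi / 9) ^ (p k * (j : ℕ))

theorem Theta_conf (p : Fin 4 → ℕ) : Theta 4 (conf p) =
    Real.pi ^ 4 / (Nat.factorial 9 : ℝ) *
      ((9 * T [q (p 0), q (p 1), q (p 2), q (p 3)] 0 [1, 2, 3, 4, 5, 6, 7, 8] : ℤ) : ℝ) := by
  rw [Theta, ← S_eq]
  congr 1
  unfold alt
  push_cast
  refine Finset.sum_congr rfl fun σ _ => ?_
  congr 1
  rw [Fin.prod_univ_four]
  simp only [conf, Or_pow]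
  rw [F]
  push_cast
  simp only [mul_assoc]
  rfl

theorem abs_Or (a b c : Circle) : |Or a b c| ≤ 1 := by
  rw [Or]
  generalize (SignType.sign ((starRingEnd ℂ ((b : ℂ) - a) * ((c : ℂ) - a)).im) : SignType) = s
  cases s <;> simp

theorem bdd (n : ℕ) : BddAbove (Set.range fun θ : Fin (2 * n + 1) → Fin n → Circle =>
    |Theta n θ|) := by
  refine ⟨Real.pi ^ n / (Nat.factorial (2 * n + 1) : ℝ) *
    ∑ σ : Perm (Fin (2 * n + 1)), 1, ?_⟩
  rintro _ ⟨θ, rfl⟩
  simp only [Theta]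
  rw [abs_mul, abs_of_nonneg (by positivity)]
  refine mul_le_mul_of_nonneg_left ?_ (by positivity)
  refine (Finset.abs_sum_le_sum_abs _ _).trans (Finset.sum_le_sum fun σ _ => ?_)
  rw [abs_mul, Finset.abs_prod]
  have h1 : |((Perm.sign σ : ℤ) : ℝ)| = 1 := by
    rcases Int.units_eq_one_or (Perm.sign σ) with h | h <;> simp [h]
  rw [h1, one_mul]
  exact Finset.prod_le_one (fun i _ => abs_nonneg _) fun i _ => abs_Or _ _ _

theorem result : ∃ n : ℕ, 1 ≤ n ∧ |Theta n (thetaStar n)| < ⨆ θ, |Theta n θ| := by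
  refine ⟨4, by norm_num, ?_⟩
  have h1 : thetaStar 4 = conf ![1, 2, 3, 4] := by
    funext j k
    rw [thetaStar, conf]
    have : ((4 : ℕ) : ℝ) = 4 := by norm_num
    rw [this, show (2 * 4 + 1 : ℝ) = 9 by norm_num]
    congr 2
    fin_cases k <;> rfl
  have h2 : |Theta 4 (conf ![1, 1, 1, 4])| ≤ ⨆ θ, |Theta 4 θ| :=
    le_ciSup (bdd 4) (conf ![1, 1, 1, 4])
  refine lt_of_lt_of_le ?_ h2
  rw [h1, Theta_conf, Theta_conf]
  have e1 : T [q (![1, 2, 3, 4] 0), q (![1, 2, 3, 4] 1), q (![1, 2, 3, 4] 2),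
      q (![1, 2, 3, 4] 3)] 0 [1, 2, 3, 4, 5, 6, 7, 8] = 1440 := T_star
  have e2 : T [q (![1, 1, 1, 4] 0), q (![1, 1, 1, 4] 1), q (![1, 1, 1, 4] 2),
      q (![1, 1, 1, 4] 3)] 0 [1, 2, 3, 4, 5, 6, 7, 8] = 1536 := T_new
  rw [e1, e2, abs_mul, abs_mul, abs_of_nonneg (by positivity : (0 : ℝ) ≤
    Real.pi ^ 4 / (Nat.factorial 9 : ℝ))]
  have hp : (0 : ℝ) < Real.pi ^ 4 / (Nat.factorial 9 : ℝ) := by positivity
  refine mul_lt_mul_of_pos_left ?_ hp
  norm_num

end Pool.Agent.Results.MP_89dd65_gt.NotMaximal
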